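import Pool.Agent.N126.IS.Stm2

/-!
The structure of the set of points: the induction on the transcendence degree.
-/

set_option autoImplicit false

open MvPolynomial Pool.Agent.W602.GT Pool.Agent.N126.IS

namespace Pool.Agent.N38.IS

section

variable {K : Type} [Field K] {n : ℕ}

/-- finitely many equations suffice (copied from `Pool/Agent/N126/IS/Main.lean`) -/
theorem exists_finite {ι : Type} (T : Finset (Fin (n + 1) →₀ ℕ))
    (F : ι → MvPolynomial (Fin (n + 1)) K) (hF : ∀ i, (F i).support ⊆ T) :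
    ∃ S : Finset ι, ∀ i, F i ∈ Submodule.span K (F '' (S : Set ι)) := by
  classical
  let N : Submodule K (MvPolynomial (Fin (n + 1)) K) :=
    Submodule.span K ((T.image fun α => monomial α (1 : K) : Finset _) : Set _)
  have hFN : ∀ i, F i ∈ N := by
    intro i
    rw [(F i).as_sum]
    refine Submodule.sum_mem _ fun α hα => ?_
    have h1 : monomial α ((F i).coeff α) = (F i).coeff α • monomial α (1 : K) := by
      rw [smul_monomial, smul_eq_mul, mul_one]
    rw [h1]
    exact Submodule.smul_mem _ _ (Submodule.subset_span (Finset.mem_coe.2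
      (Finset.mem_image_of_mem _ (hF i hα))))
  have hNfin : FiniteDimensional K N := FiniteDimensional.span_finset K _
  have hle : Submodule.span K (Set.range F) ≤ N := by
    rw [Submodule.span_le]
    rintro _ ⟨i, rfl⟩
    exact hFN i
  have hfin : FiniteDimensional K (Submodule.span K (Set.range F)) :=
    Submodule.finiteDimensional_of_le hle
  have hfg : (Submodule.span K (Set.range F)).FG := Module.Finite.iff_fg.1 hfin
  obtain ⟨s', hs', hspan⟩ := (Submodule.fg_span_iff_fg_span_finset_subset _).1 hfg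
  choose g hg using fun p : s' => hs' p.2
  refine ⟨s'.attach.image g, fun i => ?_⟩
  have h1 : F i ∈ Submodule.span K (Set.range F) := Submodule.subset_span ⟨i, rfl⟩
  rw [hspan] at h1
  refine Submodule.span_mono ?_ h1
  intro p hp
  refine ⟨g ⟨p, Finset.mem_coe.1 hp⟩, ?_, hg ⟨p, Finset.mem_coe.1 hp⟩⟩
  exact Finset.mem_coe.2 (Finset.mem_image_of_mem _ (Finset.mem_attach _ _))

theorem support_expand' (m : ℕ) (p : MvPolynomial (Fin (n + 1)) K)
    {T : Finset (Fin (n + 1) →₀ ℕ)} (hp : p.support ⊆ T) :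
    (expand m p).support ⊆ T.image fun α => m • α := by
  classical
  intro β hβ
  rw [p.as_sum, map_sum] at hβ
  obtain ⟨α, hα, hβα⟩ := Finset.mem_biUnion.1 (support_sum hβ)
  rw [expand_monomial] at hβα
  have h1 := support_monomial_subset hβα
  rw [Finset.mem_singleton] at h1
  exact Finset.mem_image.2 ⟨α, hp hα, h1.symm⟩

theorem coeff_wc (b : Fin (n + 1) → ℤ) (v : ℤ) (G : MvPolynomial (Fin (n + 1)) K)
    (α : Fin (n + 1) →₀ ℕ) : (wc b v G).coeff α =
      if ∑ j, (α j : ℤ) * b j = v then G.coeff α else 0 := by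
  classical
  unfold wc
  rw [coeff_sum]
  simp only [coeff_monomial]
  rw [Finset.sum_ite_eq']
  by_cases h : ∑ j, (α j : ℤ) * b j = v
  · by_cases h' : α ∈ G.support
    · rw [if_pos (Finset.mem_filter.2 ⟨h', h⟩), if_pos h]
    · rw [if_neg fun hh => h' (Finset.mem_filter.1 hh).1, if_pos h, notMem_support_iff.1 h']
  · simp [h]

theorem wc_add (b : Fin (n + 1) → ℤ) (v : ℤ) (G H : MvPolynomial (Fin (n + 1)) K) :
    wc b v (G + H) = wc b v G + wc b v H := by
  ext α
  rw [coeff_add, coeff_wc, coeff_wc, coeff_wc, coeff_add]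
  split_ifs <;> simp

theorem wc_smul (b : Fin (n + 1) → ℤ) (v : ℤ) (a : K) (G : MvPolynomial (Fin (n + 1)) K) :
    wc b v (a • G) = a • wc b v G := by
  ext α
  rw [coeff_smul, coeff_wc, coeff_wc, coeff_smul]
  split_ifs <;> simp

theorem wc_zero (b : Fin (n + 1) → ℤ) (v : ℤ) :
    wc b v (0 : MvPolynomial (Fin (n + 1)) K) = 0 := by
  ext α
  rw [coeff_wc, coeff_zero]
  split_ifs <;> simp

theorem wc_map {L : Type} [Field L] (f : K →+* L) (b : Fin (n + 1) → ℤ) (v : ℤ)
    (G : MvPolynomial (Fin (n + 1)) K) : wc b v (map f G) = map f (wc b v G) := by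
  ext α
  rw [coeff_map, coeff_wc, coeff_wc, coeff_map]
  split_ifs <;> simp

theorem val_wc_span {ι : Type} {F : ι → MvPolynomial (Fin (n + 1)) K} {S : Finset ι}
    (hS : ∀ i, F i ∈ Submodule.span K (F '' (S : Set ι))) (b : Fin (n + 1) → ℤ) (v : ℤ)
    {x : Fin (n + 1) → K} (hx : ∀ i ∈ S, val x (wc b v (F i)) = 0) (i : ι) :
    val x (wc b v (F i)) = 0 := by
  have h1 := hS i
  generalize F i = p at h1
  induction h1 using Submodule.span_induction with
  | mem p hp =>
    obtain ⟨i, hi, rfl⟩ := hp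
    exact hx i (Finset.mem_coe.1 hi)
  | zero => rw [wc_zero]; unfold val; rw [map_zero]
  | add p q _ _ hp hq =>
    rw [wc_add]
    unfold val at hp hq ⊢
    rw [map_add, hp, hq, add_zero]
  | smul a p _ hp =>
    rw [wc_smul]
    unfold val at hp ⊢
    rw [map_smul, hp, smul_zero]

end

/-- The statement for transcendence degree `r`. -/
def Q (r : ℕ) : Prop := ∀ (k K : Type) [Field k] [IsAlgClosed k] [CharZero k] [Field K]
    [IsAlgClosed K] [Algebra k K], Algebra.trdeg k K = r →
    ∀ (n m D : ℕ) (ι : Type) (T : Finset (Fin (n + 1) →₀ ℕ))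
    (F : ι → MvPolynomial (Fin (n + 1)) K), (∀ i, (F i).IsHomogeneous D) →
    (∀ i, (F i).support ⊆ T) → bound n T.card < m → Struct k (fun i => expand m (F i))

theorem Q_zero : Q 0 := by
  classical
  intro k K _ _ _ _ _ _ h n m D ι T F _ _ _ T0
  rw [Nat.cast_zero, trdeg_eq_zero_iff] at h
  have hs : Function.Surjective (algebraMap k K) :=
    (IsAlgClosed.algebraMap_bijective_of_isIntegral (k := k) (K := K)).2
  choose g hg using hs
  refine ⟨(Finset.univ : Finset (Finset (Fin (n + 1)))).image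
    (fun s i => if i ∈ s then (1 : K) else 0), ?_⟩
  intro x _ _ _
  refine Or.inr ⟨fun i => if i ∈ (Finset.univ.filter fun j => x j ≠ 0) then (1 : K) else 0,
    Finset.mem_image_of_mem _ (Finset.mem_univ _), 1, fun i => if x i = 0 then 1 else g (x i),
    ?_, ?_⟩
  · intro i
    by_cases hx : x i = 0
    · simp [hx]
    · simp only [hx, if_false]
      intro h0
      apply hx
      rw [← hg (x i), h0, map_zero]
  · intro i
    by_cases hx : x i = 0
    · simp [hx]
    · simp [hx, hg]

theorem Q_succ (h1 : S_STR1) (h2 : S_STEP) (h3 : S_K1) (r : ℕ) (ih : Q r) : Q (r + 1) := by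
  intro k K _ _ _ _ _ _ h n m D ι T F hF hT hm
  obtain ⟨E, hE, hk, hK⟩ := h3 k K r (by rw [h]; push_cast; rfl)
  have : CharZero E := charZero_of_injective_algebraMap (algebraMap k E).injective
  exact h2 k E K n m D T ((Nat.zero_le _).trans_lt hm)
    (fun ι' F' hF' hT' => ih k E hk n m D ι' T F' hF' hT' hm) ι F hF hT
    (h1 E K hK n m D ι T F hF hT hm)

theorem main_IND (h1 : S_STR1) (h2 : S_STEP) (h3 : S_K1) (h4 : S_KF) : S_STR := by
  classical
  have hQ : ∀ r, Q r := fun r => by
    induction r with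
    | zero => exact Q_zero
    | succ r ih => exact Q_succ h1 h2 h3 r ih
  intro k K _ _ _ _ _ _ n m D ι T F hF hT hm T0
  obtain ⟨S, hS⟩ := exists_finite _ (fun i => expand m (F i))
    fun i => support_expand' m (F i) (hT i)
  obtain ⟨E, r, hE, htr, hTE⟩ := h4 k K (T0 ∪ S.biUnion fun i => (F i).coeffs)
  have hdesc : ∀ i : S, ∃ p' : MvPolynomial (Fin (n + 1)) E, map (algebraMap E K) p' = F i := by
    intro i
    have h5 : F i ∈ Set.range (MvPolynomial.map (algebraMap E K)) := by
      rw [mem_range_map_iff_coeffs_subset]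
      intro c hc
      exact ⟨⟨c, hTE (Finset.mem_coe.2 (Finset.mem_union_right _
        (Finset.mem_biUnion.2 ⟨i.1, i.2, hc⟩)))⟩, rfl⟩
    obtain ⟨p', hp'⟩ := h5
    exact ⟨p', hp'⟩
  choose F1 hF1 using hdesc
  have hcz : CharZero E := charZero_of_injective_algebraMap (algebraMap k E).injective
  have hinj : Function.Injective (algebraMap E K) := (algebraMap E K).injective
  have hst := hQ r k E htr n m D S T F1
    (by
      intro i d hd
      refine hF i.1 ?_
      rw [← hF1 i, coeff_map]
      exact fun h => hd (hinj (h.trans (map_zero _).symm)))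
    (by
      intro i
      rw [← support_map_of_injective (F1 i) hinj, hF1 i]
      exact hT i.1) hm
  have hT0E : ∀ t ∈ T0, t ∈ E := fun t ht =>
    hTE (Finset.mem_coe.2 (Finset.mem_union_left _ ht))
  obtain ⟨T1, hT1⟩ : ∃ T1 : Finset E, (T1 : Set E).image (E.val : E → K) = (T0 : Set K) := by
    refine ⟨T0.attach.image fun t => (⟨t.1, hT0E t.1 t.2⟩ : E), ?_⟩
    ext t
    simp only [Finset.coe_image, Set.mem_image, Finset.mem_coe, Finset.mem_attach, true_and,
      Subtype.exists]
    constructor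
    · rintro ⟨a, ha, ⟨t', ht', h6⟩, h7⟩
      rw [← h7]
      have h8 : t' = a := congrArg Subtype.val h6
      change a ∈ T0
      rw [← h8]
      exact ht'
    · intro ht
      exact ⟨t, hT0E t ht, ⟨t, ht, rfl⟩, rfl⟩
  obtain ⟨S', hS'⟩ := hst T1
  have hval : ∀ (p : MvPolynomial (Fin (n + 1)) E) (x : Fin (n + 1) → E),
      val (fun i => (x i : K)) (map (algebraMap E K) p) = (val x p : E) := by
    intro p x
    unfold val
    rw [aeval_map_algebraMap]
    exact (MvPolynomial.aeval_algebraMap_apply K x p)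
  have hexp : ∀ i : S, expand m (F i.1) = map (algebraMap E K) (expand m (F1 i)) := by
    intro i
    rw [← hF1 i, map_expand]
  refine ⟨S'.image fun y i => (y i : K), ?_⟩
  intro x hx0 hxT hxF
  have hle : IntermediateField.adjoin k (T0 : Set K) ≤ E := by
    rw [IntermediateField.adjoin_le_iff]
    intro t ht
    exact hT0E t (by simpa using ht)
  have hxE : ∀ i, x i ∈ E := fun i => hle (hxT i)
  obtain ⟨x', hx'⟩ : ∃ x' : Fin (n + 1) → E, x = fun i => (x' i : K) :=
    ⟨fun i => ⟨x i, hxE i⟩, rfl⟩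
  have hx'T : ∀ i, x' i ∈ IntermediateField.adjoin k (T1 : Set E) := by
    intro i
    have h5 : (IntermediateField.adjoin k (T1 : Set E)).map E.val =
        IntermediateField.adjoin k (T0 : Set K) := by
      rw [IntermediateField.adjoin_map, hT1]
    have h6 := hxT i
    rw [← h5, hx'] at h6
    obtain ⟨y, hy, hyx⟩ := h6
    have h7 : y = x' i := Subtype.ext hyx
    rw [← h7]
    exact hy
  have hx'0 : x' ≠ 0 := by
    intro h
    apply hx0
    rw [hx', h]
    rfl
  have hx'F : ∀ i : S, val x' (expand m (F1 i)) = 0 := by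
    intro i
    apply hinj
    have h5 := hval (expand m (F1 i)) x'
    rw [← hexp i, ← hx', hxF i.1] at h5
    rw [map_zero]
    exact h5.symm
  rcases hS' x' hx'0 hx'T hx'F with ⟨b, i, i', hi, hi', hb, hv⟩ | ⟨y, hy, a, c, hc, hxy⟩
  · refine Or.inl ⟨b, i, i', ?_, ?_, hb, ?_⟩
    · rw [hx']; exact fun h => hi (hinj (h.trans (map_zero _).symm))
    · rw [hx']; exact fun h => hi' (hinj (h.trans (map_zero _).symm))
    · intro e v
      refine val_wc_span hS b v (fun j hj => ?_) e
      have h5 : wc b v (expand m (F j)) = map (algebraMap E K) (wc b v (expand m (F1 ⟨j, hj⟩))) := by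
        rw [← wc_map, ← hexp ⟨j, hj⟩]
      rw [h5, hx', hval, hv]
      rfl
  · refine Or.inr ⟨fun i => (y i : K), Finset.mem_image_of_mem _ hy, (a : K), c, hc, ?_⟩
    intro i
    rw [hx']
    change ((x' i : E) : K) = _
    rw [hxy i]
    rfl

end Pool.Agent.N38.IS
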